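import Pool.Agent.SN22.Check

/-!
# The automaton with 9 colours: 8 contexts, 6 regions
-/

set_option autoImplicit false

namespace Pool.Agent.SN22

/-- the contexts -/
def cx9 : List (List (List (ℕ × ℕ))) := [
  [[(0, 1), (0, 4), (1, 2), (1, 4), (2, 4), (3, 4), (4, 5)],
   [(0, 1), (0, 2), (0, 3), (0, 5), (1, 2), (1, 3), (1, 5), (2, 3), (3, 5)],
   [(0, 3), (0, 5), (3, 5)],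
   [(0, 2)],
   [(0, 2), (3, 4), (4, 5)],
   [(3, 5)],
   [(0, 2)],
   [(3, 5)],
   [(0, 2)]],
  [[(0, 1), (0, 5), (1, 2), (1, 3), (1, 4), (1, 5), (3, 4)],
   [(0, 3), (0, 4), (0, 5), (3, 4), (3, 5), (4, 5)],
   [(0, 1), (1, 2), (3, 5)],
   [(3, 5)],
   [(0, 2), (3, 5)],
   [(0, 2), (3, 4), (3, 5), (4, 5)],
   [(0, 2)],
   [(0, 2), (3, 5)],
   []],
  [[(0, 1), (0, 4), (1, 2), (1, 4), (2, 4), (3, 4), (4, 5)],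
   [(0, 3), (0, 5), (3, 5)],
   [(0, 1), (0, 3), (0, 5), (1, 2), (1, 3), (1, 5), (3, 5)],
   [(0, 2), (3, 5)],
   [(3, 4), (4, 5)],
   [],
   [(0, 2)],
   [(0, 2), (3, 5)],
   [(0, 2)]],
  [[(1, 2), (1, 3), (1, 4), (3, 4), (4, 5)],
   [(0, 2), (0, 3), (0, 4), (0, 5), (2, 3), (2, 5), (3, 4), (3, 5), (4, 5)],
   [(0, 2), (0, 3), (0, 5), (2, 3), (2, 5), (3, 5)],
   [(0, 2), (0, 3), (2, 3), (3, 4), (4, 5)],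
   [(2, 3), (3, 4), (3, 5)],
   [(0, 1), (0, 2), (0, 3), (1, 2), (1, 3), (2, 3), (3, 4), (4, 5)],
   [(0, 2), (0, 3), (3, 4), (3, 5), (4, 5)],
   [(0, 1), (0, 2), (0, 3), (1, 2), (1, 3), (1, 5), (2, 3), (3, 4), (3, 5), (4, 5)],
   [(2, 3), (2, 5), (3, 5)]],
  [[(0, 1), (1, 2), (1, 3), (1, 4), (1, 5), (3, 4), (4, 5)],
   [(0, 2), (0, 4), (0, 5), (2, 3), (2, 4), (2, 5), (3, 4), (3, 5), (4, 5)],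
   [(0, 2), (0, 5), (2, 5)],
   [(3, 5)],
   [(0, 1), (1, 2), (3, 5)],
   [(0, 2)],
   [(3, 5)],
   [(0, 2)],
   [(3, 5)]],
  [[(0, 4), (0, 5), (1, 2), (1, 4), (2, 4), (3, 4), (4, 5)],
   [(0, 1), (0, 2), (0, 5), (1, 2), (1, 5), (2, 5)],
   [(0, 2), (3, 4), (4, 5)],
   [(0, 2)],
   [(0, 2), (3, 5)],
   [(0, 1), (0, 2), (1, 2), (3, 5)],
   [(3, 5)],
   [(0, 2), (3, 5)],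
   []],
  [[(0, 1), (1, 2), (1, 3), (1, 4), (1, 5), (3, 4), (4, 5)],
   [(0, 2), (0, 5), (2, 5)],
   [(0, 2), (0, 4), (0, 5), (2, 4), (2, 5), (3, 4), (4, 5)],
   [(0, 2), (3, 5)],
   [(0, 1), (1, 2)],
   [],
   [(3, 5)],
   [(0, 2), (3, 5)],
   [(3, 5)]],
  [[(0, 1), (1, 2), (1, 4), (2, 4), (3, 4)],
   [(0, 1), (0, 2), (0, 3), (0, 5), (1, 2), (1, 5), (2, 3), (2, 5), (3, 5)],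
   [(0, 2), (0, 3), (0, 5), (2, 3), (2, 5), (3, 5)],
   [(0, 1), (1, 2), (2, 3), (2, 5), (3, 5)],
   [(0, 2), (1, 2), (2, 3)],
   [(0, 1), (1, 2), (2, 3), (2, 4), (2, 5), (3, 4), (3, 5), (4, 5)],
   [(0, 1), (0, 2), (1, 2), (2, 5), (3, 5)],
   [(0, 1), (0, 2), (0, 4), (1, 2), (2, 3), (2, 4), (2, 5), (3, 4), (3, 5), (4, 5)],
   [(0, 2), (0, 3), (2, 3)]]]

/-- the rules -/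
def rl9 : List (List Rule) := [
  [⟨1, 4, [0, 1, 2, 7, 8, 9], [3, 4, 5, 6, 8, 10],
    [0, 1, 2, 3, 4, 5, 5, 5, 5, 5, 5], [1, 2, 0, 5, 3, 8, 4, 6, 7],
    [4, 7, 5, 3, 0, 2, 8, 1, 6]⟩,
   ⟨2, 2, [1, 2, 3, 5, 6, 7], [0, 2, 4, 8, 9, 10],
    [0, 0, 0, 0, 0, 0, 1, 2, 3, 4, 5], [1, 6, 4, 8, 0, 2, 7, 3, 5],
    [0, 1, 2, 7, 4, 6, 3, 5, 8]⟩,
   ⟨1, 0, [0, 1, 2, 4, 5, 6], [3, 5, 7, 8, 9, 10],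
    [0, 1, 2, 3, 3, 3, 3, 3, 3, 4, 5], [1, 2, 0, 7, 6, 8, 4, 3, 5],
    [4, 5, 7, 3, 0, 2, 6, 1, 8]⟩],
  [⟨1, 6, [0, 1, 2, 7, 8, 9], [3, 4, 5, 6, 8, 10],
    [0, 1, 2, 3, 4, 5, 5, 5, 5, 5, 5], [0, 1, 2, 8, 7, 4, 5, 6, 3],
    [5, 7, 3, 4, 1, 0, 8, 2, 6]⟩,
   ⟨2, 5, [0, 2, 4, 5, 6, 7], [1, 2, 3, 8, 9, 10],
    [0, 0, 0, 0, 0, 0, 1, 2, 3, 4, 5], [2, 7, 6, 4, 0, 1, 8, 5, 3],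
    [1, 0, 5, 8, 4, 3, 2, 7, 6]⟩,
   ⟨1, 7, [0, 1, 2, 3, 5, 10], [4, 5, 6, 7, 8, 9],
    [0, 1, 2, 3, 3, 3, 3, 3, 4, 5, 5], [0, 1, 2, 3, 5, 4, 6, 7, 8],
    [0, 7, 3, 4, 6, 1, 2, 5, 8]⟩],
  [⟨1, 4, [0, 1, 2, 7, 8, 9], [3, 4, 5, 6, 8, 10],
    [0, 1, 2, 3, 4, 5, 5, 5, 5, 5, 5], [2, 1, 0, 5, 6, 8, 3, 7, 4],
    [4, 3, 7, 5, 0, 2, 8, 1, 6]⟩,
   ⟨2, 0, [1, 2, 3, 5, 6, 7], [0, 2, 4, 8, 9, 10],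
    [0, 0, 0, 0, 0, 0, 1, 2, 3, 4, 5], [2, 7, 3, 8, 0, 1, 5, 6, 4],
    [0, 1, 2, 8, 4, 3, 5, 7, 6]⟩,
   ⟨1, 0, [0, 1, 2, 4, 5, 6], [3, 5, 7, 8, 9, 10],
    [0, 1, 2, 3, 3, 3, 3, 3, 3, 4, 5], [2, 1, 0, 5, 6, 8, 7, 3, 4],
    [4, 7, 3, 8, 0, 2, 6, 1, 5]⟩],
  [⟨6, 4, [0, 1, 2, 6, 8, 10], [3, 4, 5, 7, 8, 9],
    [0, 1, 2, 3, 4, 5, 5, 5, 5, 5, 5], [7, 2, 1, 6, 5, 4, 0, 3, 8],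
    [5, 4, 2, 8, 6, 7, 0, 1, 3]⟩,
   ⟨0, 5, [0, 2, 4, 5, 6, 7], [1, 2, 3, 8, 9, 10],
    [0, 0, 0, 0, 0, 0, 1, 2, 3, 4, 5], [7, 3, 6, 4, 5, 1, 0, 2, 8],
    [1, 2, 0, 5, 4, 8, 7, 6, 3]⟩,
   ⟨3, 3, [1, 2, 3, 4, 5, 6], [0, 5, 7, 8, 9, 10],
    [0, 0, 1, 2, 3, 3, 3, 3, 3, 4, 5], [0, 2, 1, 3, 8, 7, 6, 5, 4],
    [0, 1, 2, 5, 4, 3, 6, 7, 8]⟩],
  [⟨6, 6, [0, 1, 2, 6, 8, 10], [3, 4, 5, 7, 8, 9],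
    [0, 1, 2, 3, 4, 5, 5, 5, 5, 5, 5], [0, 1, 2, 7, 4, 6, 3, 5, 8],
    [1, 6, 4, 8, 0, 2, 7, 3, 5]⟩,
   ⟨0, 5, [0, 2, 4, 5, 6, 7], [1, 2, 3, 8, 9, 10],
    [0, 0, 0, 0, 0, 0, 1, 2, 3, 4, 5], [4, 7, 5, 3, 0, 2, 8, 1, 6],
    [1, 2, 0, 5, 3, 8, 4, 6, 7]⟩,
   ⟨4, 5, [0, 1, 2, 3, 5, 7], [4, 5, 6, 8, 9, 10],
    [0, 1, 2, 2, 2, 2, 2, 2, 3, 4, 5], [4, 5, 7, 3, 0, 2, 6, 1, 8],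
    [1, 2, 0, 7, 6, 8, 4, 3, 5]⟩],
  [⟨1, 6, [0, 1, 2, 7, 8, 9], [3, 4, 5, 6, 8, 10],
    [0, 1, 2, 3, 4, 5, 5, 5, 5, 5, 5], [1, 0, 5, 8, 4, 3, 2, 7, 6],
    [2, 7, 6, 4, 0, 1, 8, 5, 3]⟩,
   ⟨2, 5, [0, 2, 4, 5, 6, 7], [1, 2, 3, 8, 9, 10],
    [0, 0, 0, 0, 0, 0, 1, 2, 3, 4, 5], [5, 7, 3, 4, 1, 0, 8, 2, 6],
    [0, 1, 2, 8, 7, 4, 5, 6, 3]⟩,
   ⟨3, 5, [1, 2, 3, 4, 5, 6], [0, 5, 7, 8, 9, 10],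
    [0, 0, 1, 2, 2, 2, 2, 2, 3, 4, 5], [0, 7, 3, 4, 6, 1, 2, 5, 8],
    [0, 1, 2, 3, 5, 4, 6, 7, 8]⟩],
  [⟨4, 6, [0, 1, 2, 6, 8, 10], [3, 4, 5, 7, 8, 9],
    [0, 1, 2, 3, 4, 5, 5, 5, 5, 5, 5], [0, 1, 2, 8, 4, 3, 5, 7, 6],
    [2, 7, 3, 8, 0, 1, 5, 6, 4]⟩,
   ⟨0, 5, [0, 2, 4, 5, 6, 7], [1, 2, 3, 8, 9, 10],
    [0, 0, 0, 0, 0, 0, 1, 2, 3, 4, 5], [4, 3, 7, 5, 0, 2, 8, 1, 6],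
    [2, 1, 0, 5, 6, 8, 3, 7, 4]⟩,
   ⟨4, 5, [0, 1, 2, 3, 5, 7], [4, 5, 6, 8, 9, 10],
    [0, 1, 2, 2, 2, 2, 2, 2, 3, 4, 5], [4, 7, 3, 8, 0, 2, 6, 1, 5],
    [2, 1, 0, 5, 6, 8, 7, 3, 4]⟩],
  [⟨1, 4, [0, 1, 2, 7, 8, 9], [3, 4, 5, 6, 8, 10],
    [0, 1, 2, 3, 4, 5, 5, 5, 5, 5, 5], [1, 2, 0, 5, 4, 8, 7, 6, 3],
    [7, 3, 6, 4, 5, 1, 0, 2, 8]⟩,
   ⟨0, 2, [1, 2, 3, 5, 6, 7], [0, 2, 4, 8, 9, 10],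
    [0, 0, 0, 0, 0, 0, 1, 2, 3, 4, 5], [5, 4, 2, 8, 6, 7, 0, 1, 3],
    [7, 2, 1, 6, 5, 4, 0, 3, 8]⟩,
   ⟨7, 7, [0, 1, 2, 3, 5, 10], [4, 5, 6, 7, 8, 9],
    [0, 1, 2, 2, 2, 2, 2, 3, 4, 5, 5], [0, 1, 2, 5, 4, 3, 6, 7, 8],
    [0, 2, 1, 3, 8, 7, 6, 5, 4]⟩]]

/-- the automaton -/
def aut9 : Aut := ⟨6, 1, 4, 9, 8, cx9, rl9⟩

theorem aut9_0 : chkQ aut9 0 = true := by decide +kernel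

theorem aut9_1 : chkQ aut9 1 = true := by decide +kernel

theorem aut9_2 : chkQ aut9 2 = true := by decide +kernel

theorem aut9_3 : chkQ aut9 3 = true := by decide +kernel

theorem aut9_4 : chkQ aut9 4 = true := by decide +kernel

theorem aut9_5 : chkQ aut9 5 = true := by decide +kernel

theorem aut9_6 : chkQ aut9 6 = true := by decide +kernel

theorem aut9_7 : chkQ aut9 7 = true := by decide +kernel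

theorem aut9_ok : Ok aut9 := by
  refine ok_of_chk (by decide) ?_
  intro q hq
  have hq' : q < 8 := hq
  interval_cases q
  · exact aut9_0
  · exact aut9_1
  · exact aut9_2
  · exact aut9_3
  · exact aut9_4
  · exact aut9_5
  · exact aut9_6
  · exact aut9_7

end Pool.Agent.SN22
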