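import Pool.Agent.SN22.Comp

/-!
# The finite check of an automaton
-/

set_option autoImplicit false

namespace Pool.Agent.SN22

/-- for all numbers less than `n` -/
def allB : ℕ → (ℕ → Bool) → Bool
  | 0, _ => true
  | n + 1, f => f n && allB n f

theorem allB_spec {n : ℕ} {f : ℕ → Bool} (h : allB n f = true) : ∀ i, i < n → f i = true := by
  induction n with
  | zero => intro i hi; omega
  | succ n ih =>
    rw [allB, Bool.and_eq_true] at h
    intro i hi
    rcases Nat.lt_succ_iff_lt_or_eq.1 hi with h1 | h1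
    · exact ih h.2 i h1
    · rw [h1]; exact h.1

/-- for all members of a list of pairs -/
def allL : List (ℕ × ℕ) → (ℕ → ℕ → Bool) → Bool
  | [], _ => true
  | p :: l, f => f p.1 p.2 && allL l f

theorem allL_spec {l : List (ℕ × ℕ)} {f : ℕ → ℕ → Bool} (h : allL l f = true) :
    ∀ p ∈ l, f p.1 p.2 = true := by
  induction l with
  | nil => intro p hp; exact absurd hp List.not_mem_nil
  | cons a l ih =>
    rw [allL, Bool.and_eq_true] at h
    intro p hp
    rcases List.mem_cons.1 hp with h1 | h1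
    · rw [h1]; exact h.1
    · exact ih h.2 p h1

/-- membership -/
def memL : List (ℕ × ℕ) → ℕ → ℕ → Bool
  | [], _, _ => false
  | p :: l, a, b => (Nat.beq p.1 a && Nat.beq p.2 b) || memL l a b

theorem memL_spec {l : List (ℕ × ℕ)} {a b : ℕ} (h : memL l a b = true) : (a, b) ∈ l := by
  induction l with
  | nil => exact absurd h Bool.false_ne_true
  | cons p l ih =>
    rw [memL, Bool.or_eq_true, Bool.and_eq_true] at h
    rcases h with ⟨h1, h2⟩ | h
    · have e1 := Nat.eq_of_beq_eq_true h1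
      have e2 := Nat.eq_of_beq_eq_true h2
      rw [← e1, ← e2]
      exact List.mem_cons_self
    · exact List.mem_cons_of_mem _ (ih h)

/-- implication -/
def imp (a b : Bool) : Bool := !a || b

theorem imp_spec {a b : Bool} (h : imp a b = true) (ha : a = true) : b = true := by
  subst ha
  exact h

/-- no crossing of the item pairs `(a, b)` and `(c, d)` -/
def noX (a b c d : ℕ) : Bool :=
  !(Nat.blt a c && Nat.blt c b && Nat.blt b d) && !(Nat.blt c a && Nat.blt a d && Nat.blt d b)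

theorem blt_iff {a b : ℕ} : Nat.blt a b = true ↔ a < b := by
  unfold Nat.blt
  rw [Nat.ble_eq]
  exact Nat.succ_le_iff

theorem noX_spec {a b c d : ℕ} (h : noX a b c d = true) :
    ¬ (a < c ∧ c < b ∧ b < d) ∧ ¬ (c < a ∧ a < d ∧ d < b) := by
  unfold noX at h
  rw [Bool.and_eq_true, Bool.not_eq_true', Bool.not_eq_true'] at h
  constructor
  · rintro ⟨h1, h2, h3⟩
    have e := h.1
    rw [blt_iff.2 h1, blt_iff.2 h2, blt_iff.2 h3] at e
    exact absurd e Bool.false_ne_true.symm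
  · rintro ⟨h1, h2, h3⟩
    have e := h.2
    rw [blt_iff.2 h1, blt_iff.2 h2, blt_iff.2 h3] at e
    exact absurd e Bool.false_ne_true.symm

/-- the check of a rule -/
def chkR (A : Aut) (q : ℕ) (R : Rule) (xu xw yv yw : ℕ) : Bool :=
  (allB A.n fun b => allB b fun a => Nat.blt (gt R.m1 a) (gt R.m1 b) && Nat.blt (gt R.m2 a) (gt R.m2 b)) &&
  Nat.beq (gt R.m1 xw) (gt R.m2 yw) &&
  (allB A.n fun a => allB A.n fun b =>
    imp (Nat.beq (gt R.m1 a) (gt R.m2 b)) (Nat.beq a xw && Nat.beq b yw) &&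
    imp (Nat.ble (gt R.m1 a) (gt R.m1 b)) (Nat.ble (gt R.par (gt R.m1 a)) (gt R.par (gt R.m1 b))) &&
    imp (Nat.ble (gt R.m1 a) (gt R.m2 b)) (Nat.ble (gt R.par (gt R.m1 a)) (gt R.par (gt R.m2 b))) &&
    imp (Nat.ble (gt R.m2 a) (gt R.m1 b)) (Nat.ble (gt R.par (gt R.m2 a)) (gt R.par (gt R.m1 b))) &&
    imp (Nat.ble (gt R.m2 a) (gt R.m2 b)) (Nat.ble (gt R.par (gt R.m2 a)) (gt R.par (gt R.m2 b)))) &&
  (allB A.n fun a => Nat.blt (gt R.par (gt R.m1 a)) A.n && Nat.blt (gt R.par (gt R.m2 a)) A.n &&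
    imp (Nat.beq (gt R.par (gt R.m1 a)) A.iu) (Nat.beq a xu) &&
    !(Nat.beq (gt R.par (gt R.m2 a)) A.iu) && !(Nat.beq (gt R.par (gt R.m1 a)) A.iv) &&
    imp (Nat.beq (gt R.par (gt R.m2 a)) A.iv) (Nat.beq a yv)) &&
  Nat.beq (gt R.par (gt R.m1 xu)) A.iu && Nat.beq (gt R.par (gt R.m2 yv)) A.iv &&
  (allB A.K fun c => Nat.blt (gt R.e1 c) A.K && Nat.blt (gt R.e2 c) A.K &&
    (allL (A.kinds R.s1 c) fun a b => Nat.beq (gt R.par (gt R.m1 a)) (gt R.par (gt R.m1 b)) ||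
      memL (A.kinds q (gt R.e1 c)) (gt R.par (gt R.m1 a)) (gt R.par (gt R.m1 b))) &&
    (allL (A.kinds R.s2 c) fun a b => Nat.beq (gt R.par (gt R.m2 a)) (gt R.par (gt R.m2 b)) ||
      memL (A.kinds q (gt R.e2 c)) (gt R.par (gt R.m2 a)) (gt R.par (gt R.m2 b)))) &&
  (allB A.K fun c => allB A.K fun d =>
    imp (Nat.beq (gt R.e1 c) (gt R.e1 d)) (Nat.beq c d) &&
    imp (Nat.beq (gt R.e2 c) (gt R.e2 d)) (Nat.beq c d) &&
    imp (Nat.beq (gt R.e1 c) (gt R.e2 d)) (allL (A.kinds R.s1 c) fun x y =>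
      allL (A.kinds R.s2 d) fun z t => noX (gt R.m1 x) (gt R.m1 y) (gt R.m2 z) (gt R.m2 t)))

theorem chkR_spec {A : Aut} {q : ℕ} {R : Rule} {xu xw yv yw : ℕ} (h : chkR A q R xu xw yv yw = true) :
    RuleOk A q R xu xw yv yw := by
  unfold chkR at h
  simp only [Bool.and_eq_true] at h
  obtain ⟨⟨⟨⟨⟨⟨⟨h1, h2⟩, h3⟩, h4⟩, h5⟩, h6⟩, h7⟩, h8⟩ := h
  have g1 : ∀ a b, a < b → b < A.n → Nat.blt (gt R.m1 a) (gt R.m1 b) = true ∧
      Nat.blt (gt R.m2 a) (gt R.m2 b) = true := by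
    intro a b hab hb
    have := allB_spec (allB_spec h1 b hb) a hab
    rw [Bool.and_eq_true] at this
    exact this
  have g3 := fun a b (ha : a < A.n) (hb : b < A.n) => allB_spec (allB_spec h3 a ha) b hb
  simp only [Bool.and_eq_true] at g3
  have g4 := fun a (ha : a < A.n) => allB_spec h4 a ha
  simp only [Bool.and_eq_true, Bool.not_eq_true'] at g4
  have g7 := fun c (hc : c < A.K) => allB_spec h7 c hc
  simp only [Bool.and_eq_true] at g7
  have g8 := fun c d (hc : c < A.K) (hd : d < A.K) => allB_spec (allB_spec h8 c hc) d hd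
  simp only [Bool.and_eq_true] at g8
  have beqf : ∀ {a b : ℕ}, Nat.beq a b = false → a ≠ b := by
    intro a b h e
    rw [e, Nat.beq_refl] at h
    exact absurd h Bool.false_ne_true.symm
  have beqt : ∀ {a b : ℕ}, a = b → Nat.beq a b = true := by
    intro a b e
    rw [e, Nat.beq_refl]
  have blet : ∀ {a b : ℕ}, Nat.ble a b = true ↔ a ≤ b := fun {a b} => by rw [Nat.ble_eq]
  refine ⟨?_, ?_, ?_, ?_, ?_, ?_, ?_, ?_, ?_, ?_, ?_, ?_, ?_, ?_, ?_, ?_, ?_, ?_, ?_, ?_, ?_, ?_, ?_⟩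
  · intro a b hab hb; exact blt_iff.1 (g1 a b hab hb).1
  · intro a b hab hb; exact blt_iff.1 (g1 a b hab hb).2
  · exact Nat.eq_of_beq_eq_true h2
  · intro a b ha hb e
    have := imp_spec (g3 a b ha hb).1.1.1.1 (beqt e)
    rw [Bool.and_eq_true] at this
    exact ⟨Nat.eq_of_beq_eq_true this.1, Nat.eq_of_beq_eq_true this.2⟩
  · intro a b ha hb e
    exact blet.1 (imp_spec (g3 a b ha hb).1.1.1.2 (blet.2 e))
  · intro a b ha hb e
    exact blet.1 (imp_spec (g3 a b ha hb).1.1.2 (blet.2 e))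
  · intro a b ha hb e
    exact blet.1 (imp_spec (g3 a b ha hb).1.2 (blet.2 e))
  · intro a b ha hb e
    exact blet.1 (imp_spec (g3 a b ha hb).2 (blet.2 e))
  · intro a ha; exact blt_iff.1 (g4 a ha).1.1.1.1.1
  · intro a ha; exact blt_iff.1 (g4 a ha).1.1.1.1.2
  · exact Nat.eq_of_beq_eq_true h5
  · intro a ha e; exact Nat.eq_of_beq_eq_true (imp_spec (g4 a ha).1.1.1.2 (beqt e))
  · intro a ha; exact beqf (g4 a ha).1.1.2
  · exact Nat.eq_of_beq_eq_true h6
  · intro a ha; exact beqf (g4 a ha).1.2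
  · intro a ha e; exact Nat.eq_of_beq_eq_true (imp_spec (g4 a ha).2 (beqt e))
  · intro c d hc hd e; exact Nat.eq_of_beq_eq_true (imp_spec (g8 c d hc hd).1.1 (beqt e))
  · intro c d hc hd e; exact Nat.eq_of_beq_eq_true (imp_spec (g8 c d hc hd).1.2 (beqt e))
  · intro c hc; exact blt_iff.1 (g7 c hc).1.1.1
  · intro c hc; exact blt_iff.1 (g7 c hc).1.1.2
  · intro c hc p hp
    have := allL_spec (g7 c hc).1.2 p hp
    rw [Bool.or_eq_true] at this
    rcases this with h | h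
    · exact Or.inl (Nat.eq_of_beq_eq_true h)
    · exact Or.inr (memL_spec h)
  · intro c hc p hp
    have := allL_spec (g7 c hc).2 p hp
    rw [Bool.or_eq_true] at this
    rcases this with h | h
    · exact Or.inl (Nat.eq_of_beq_eq_true h)
    · exact Or.inr (memL_spec h)
  · intro c d hc hd e p hp r hr
    have := allL_spec (allL_spec (imp_spec (g8 c d hc hd).2 (beqt e)) p hp) r hr
    exact noX_spec this

/-- the check of a context -/
def chkS (A : Aut) (q : ℕ) : Bool :=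
  Nat.blt A.iu A.iv && Nat.blt A.iv A.n && Nat.blt 0 A.K && memL (A.kinds q 0) A.iu A.iv &&
  allL (A.kinds q 0) fun a b => !(Nat.blt a A.iu && Nat.blt A.iu b && Nat.blt b A.iv) &&
    !(Nat.blt A.iu a && Nat.blt a A.iv && Nat.blt A.iv b)

theorem chkS_spec {A : Aut} {q : ℕ} (h : chkS A q = true) : StOk A q := by
  unfold chkS at h
  simp only [Bool.and_eq_true] at h
  obtain ⟨⟨⟨⟨h1, h2⟩, h3⟩, h4⟩, h5⟩ := h
  refine ⟨blt_iff.1 h1, blt_iff.1 h2, blt_iff.1 h3, memL_spec h4, ?_⟩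
  intro p hp
  have := allL_spec h5 p hp
  rw [Bool.and_eq_true, Bool.not_eq_true', Bool.not_eq_true'] at this
  constructor
  · rintro ⟨a1, a2, a3⟩
    have e := this.1
    rw [blt_iff.2 a1, blt_iff.2 a2, blt_iff.2 a3] at e
    exact absurd e Bool.false_ne_true.symm
  · rintro ⟨a1, a2, a3⟩
    have e := this.2
    rw [blt_iff.2 a1, blt_iff.2 a2, blt_iff.2 a3] at e
    exact absurd e Bool.false_ne_true.symm

/-- the check of the context `q`: its rules for the types `0` (`u < v < w`), `1` (`w < u < v`) and `2`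
(`u < w < v`) -/
def chkQ (A : Aut) (q : ℕ) : Bool :=
  chkS A q &&
  Nat.blt (A.rule q 0).s1 A.N && Nat.blt (A.rule q 0).s2 A.N &&
  Nat.blt (A.rule q 1).s1 A.N && Nat.blt (A.rule q 1).s2 A.N &&
  Nat.blt (A.rule q 2).s1 A.N && Nat.blt (A.rule q 2).s2 A.N &&
  chkR A q (A.rule q 0) A.iu A.iv A.iu A.iv &&
  chkR A q (A.rule q 1) A.iv A.iu A.iv A.iu &&
  chkR A q (A.rule q 2) A.iu A.iv A.iv A.iu

/-- a correct automaton -/
structure Ok (A : Aut) : Prop where
  pos : 0 < A.N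
  st : ∀ q, q < A.N → StOk A q
  t1 : ∀ q t, q < A.N → t < 3 → (A.rule q t).s1 < A.N
  t2 : ∀ q t, q < A.N → t < 3 → (A.rule q t).s2 < A.N
  r0 : ∀ q, q < A.N → RuleOk A q (A.rule q 0) A.iu A.iv A.iu A.iv
  r1 : ∀ q, q < A.N → RuleOk A q (A.rule q 1) A.iv A.iu A.iv A.iu
  r2 : ∀ q, q < A.N → RuleOk A q (A.rule q 2) A.iu A.iv A.iv A.iu

theorem ok_of_chk {A : Aut} (h0 : 0 < A.N) (h : ∀ q, q < A.N → chkQ A q = true) : Ok A := by
  have h' : ∀ q, q < A.N → _ := fun q hq => by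
    have := h q hq
    unfold chkQ at this
    simp only [Bool.and_eq_true] at this
    exact this
  refine ⟨h0, ?_, ?_, ?_, ?_, ?_, ?_⟩
  · intro q hq; exact chkS_spec (h' q hq).1.1.1.1.1.1.1.1.1
  · intro q t hq ht
    interval_cases t
    · exact blt_iff.1 (h' q hq).1.1.1.1.1.1.1.1.2
    · exact blt_iff.1 (h' q hq).1.1.1.1.1.1.2
    · exact blt_iff.1 (h' q hq).1.1.1.1.2
  · intro q t hq ht
    interval_cases t
    · exact blt_iff.1 (h' q hq).1.1.1.1.1.1.1.2
    · exact blt_iff.1 (h' q hq).1.1.1.1.1.2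
    · exact blt_iff.1 (h' q hq).1.1.1.2
  · intro q hq; exact chkR_spec (h' q hq).1.1.2
  · intro q hq; exact chkR_spec (h' q hq).1.2
  · intro q hq; exact chkR_spec (h' q hq).2

end Pool.Agent.SN22
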