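import Mathlib

/-!
# Recursive layouts of outerplanar DAGs: the composition step

A layout of a piece with base edge `(a, b)` puts every vertex of the piece in one of `n` consecutive
regions; `a` and `b` are alone in their regions. A context `q` lists for every colour the pairs of
different regions which may be joined by an edge of this colour. A rule merges the layouts of two
pieces with a common vertex `w` into a layout of their union.
-/

set_option autoImplicit false

namespace Pool.Agent.SN22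

/-- the `i`-th entry of a list, `0` outside -/
def gt (l : List ℕ) (i : ℕ) : ℕ := l.getD i 0

/-- A rule: contexts `s1, s2` of the two pieces, item numbers `m1, m2` of their regions in the merged
sequence, region `par` of every item in the union, colours `e1, e2` of the two pieces in the union. -/
structure Rule where
  s1 : ℕ
  s2 : ℕ
  m1 : List ℕ
  m2 : List ℕ
  par : List ℕ
  e1 : List ℕ
  e2 : List ℕ

/-- A finite automaton: `n` regions, regions `iu < iv` of the end points of the base edge, `K` colours,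
`N` contexts. -/
structure Aut where
  n : ℕ
  iu : ℕ
  iv : ℕ
  K : ℕ
  N : ℕ
  cx : List (List (List (ℕ × ℕ)))
  rl : List (List Rule)

/-- the pairs of regions allowed for the colour `c` in the context `q` -/
def Aut.kinds (A : Aut) (q c : ℕ) : List (ℕ × ℕ) := (A.cx.getD q []).getD c []

/-- the rule of the context `q` for the type `t` -/
def Aut.rule (A : Aut) (q t : ℕ) : Rule := (A.rl.getD q []).getD t ⟨0, 0, [], [], [], [], []⟩

/-- what a rule has to satisfy -/
structure RuleOk (A : Aut) (q : ℕ) (R : Rule) (xu xw yv yw : ℕ) : Prop where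
  mono1 : ∀ a b, a < b → b < A.n → gt R.m1 a < gt R.m1 b
  mono2 : ∀ a b, a < b → b < A.n → gt R.m2 a < gt R.m2 b
  join : gt R.m1 xw = gt R.m2 yw
  disj : ∀ a b, a < A.n → b < A.n → gt R.m1 a = gt R.m2 b → a = xw ∧ b = yw
  par11 : ∀ a b, a < A.n → b < A.n → gt R.m1 a ≤ gt R.m1 b → gt R.par (gt R.m1 a) ≤ gt R.par (gt R.m1 b)
  par12 : ∀ a b, a < A.n → b < A.n → gt R.m1 a ≤ gt R.m2 b → gt R.par (gt R.m1 a) ≤ gt R.par (gt R.m2 b)
  par21 : ∀ a b, a < A.n → b < A.n → gt R.m2 a ≤ gt R.m1 b → gt R.par (gt R.m2 a) ≤ gt R.par (gt R.m1 b)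
  par22 : ∀ a b, a < A.n → b < A.n → gt R.m2 a ≤ gt R.m2 b → gt R.par (gt R.m2 a) ≤ gt R.par (gt R.m2 b)
  lt1 : ∀ a, a < A.n → gt R.par (gt R.m1 a) < A.n
  lt2 : ∀ a, a < A.n → gt R.par (gt R.m2 a) < A.n
  pu : gt R.par (gt R.m1 xu) = A.iu
  pu1 : ∀ a, a < A.n → gt R.par (gt R.m1 a) = A.iu → a = xu
  pu2 : ∀ a, a < A.n → gt R.par (gt R.m2 a) ≠ A.iu
  pv : gt R.par (gt R.m2 yv) = A.iv
  pv1 : ∀ a, a < A.n → gt R.par (gt R.m1 a) ≠ A.iv
  pv2 : ∀ a, a < A.n → gt R.par (gt R.m2 a) = A.iv → a = yv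
  inj1 : ∀ c d, c < A.K → d < A.K → gt R.e1 c = gt R.e1 d → c = d
  inj2 : ∀ c d, c < A.K → d < A.K → gt R.e2 c = gt R.e2 d → c = d
  col1 : ∀ c, c < A.K → gt R.e1 c < A.K
  col2 : ∀ c, c < A.K → gt R.e2 c < A.K
  k1 : ∀ c, c < A.K → ∀ p ∈ A.kinds R.s1 c, gt R.par (gt R.m1 p.1) = gt R.par (gt R.m1 p.2) ∨
    (gt R.par (gt R.m1 p.1), gt R.par (gt R.m1 p.2)) ∈ A.kinds q (gt R.e1 c)
  k2 : ∀ c, c < A.K → ∀ p ∈ A.kinds R.s2 c, gt R.par (gt R.m2 p.1) = gt R.par (gt R.m2 p.2) ∨
    (gt R.par (gt R.m2 p.1), gt R.par (gt R.m2 p.2)) ∈ A.kinds q (gt R.e2 c)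
  cr : ∀ c d, c < A.K → d < A.K → gt R.e1 c = gt R.e2 d → ∀ p ∈ A.kinds R.s1 c,
    ∀ r ∈ A.kinds R.s2 d,
    ¬ (gt R.m1 p.1 < gt R.m2 r.1 ∧ gt R.m2 r.1 < gt R.m1 p.2 ∧ gt R.m1 p.2 < gt R.m2 r.2) ∧
    ¬ (gt R.m2 r.1 < gt R.m1 p.1 ∧ gt R.m1 p.1 < gt R.m2 r.2 ∧ gt R.m2 r.2 < gt R.m1 p.2)

/-- what a context has to satisfy -/
structure StOk (A : Aut) (q : ℕ) : Prop where
  uv : A.iu < A.iv
  vn : A.iv < A.n
  K0 : 0 < A.K
  base : (A.iu, A.iv) ∈ A.kinds q 0
  own : ∀ p ∈ A.kinds q 0, ¬ (p.1 < A.iu ∧ A.iu < p.2 ∧ p.2 < A.iv) ∧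
    ¬ (A.iu < p.1 ∧ p.1 < A.iv ∧ A.iv < p.2)

/-- A layout of a piece with vertices `X`, edges `F` and base `a`, `b` (in the regions `al`, `be`) in the
context `q`: regions `reg`, positions `pos < B`, colours `col`. -/
structure Lay {V : Type*} (A : Aut) (X : Set V) (F : V → V → Prop) (al be : ℕ) (a b : V) (q : ℕ)
    (B : ℕ) (reg pos : V → ℕ) (col : V → V → ℕ) : Prop where
  lt : ∀ x ∈ X, reg x < A.n
  ra : ∀ x ∈ X, reg x = al ↔ x = a
  rb : ∀ x ∈ X, reg x = be ↔ x = b
  bd : ∀ x ∈ X, pos x < B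
  inj : ∀ x ∈ X, ∀ y ∈ X, pos x = pos y → x = y
  mono : ∀ x ∈ X, ∀ y ∈ X, reg x < reg y → pos x < pos y
  mem : ∀ x y, F x y → x ∈ X ∧ y ∈ X
  up : ∀ x y, F x y → pos x < pos y
  cl : ∀ x y, F x y → col x y < A.K
  kd : ∀ x y, F x y → reg x ≠ reg y → (reg x, reg y) ∈ A.kinds q (col x y)
  cr : ∀ x y z t, F x y → F z t → col x y = col z t →
    ¬ (pos x < pos z ∧ pos z < pos y ∧ pos y < pos t)

/-- there is a layout -/
def Good {V : Type*} (A : Aut) (X : Set V) (F : V → V → Prop) (al be : ℕ) (a b : V) (q : ℕ) : Prop :=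
  ∃ (B : ℕ) (reg pos : V → ℕ) (col : V → V → ℕ), Lay A X F al be a b q B reg pos col

theorem Good.swap {V : Type*} {A : Aut} {X : Set V} {F : V → V → Prop} {al be : ℕ} {a b : V} {q : ℕ}
    (h : Good A X F al be a b q) : Good A X F be al b a q := by
  obtain ⟨B, reg, pos, col, L⟩ := h
  exact ⟨B, reg, pos, col, ⟨L.lt, L.rb, L.ra, L.bd, L.inj, L.mono, L.mem, L.up, L.cl, L.kd, L.cr⟩⟩

theorem Good.sub {V : Type*} {A : Aut} {X : Set V} {F F' : V → V → Prop} {al be : ℕ} {a b : V} {q : ℕ}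
    (h : Good A X F al be a b q) (hF : ∀ x y, F' x y → F x y) : Good A X F' al be a b q := by
  obtain ⟨B, reg, pos, col, L⟩ := h
  exact ⟨B, reg, pos, col, ⟨L.lt, L.ra, L.rb, L.bd, L.inj, L.mono, fun x y h => L.mem x y (hF x y h),
    fun x y h => L.up x y (hF x y h), fun x y h => L.cl x y (hF x y h),
    fun x y h => L.kd x y (hF x y h),
    fun x y z t h h' => L.cr x y z t (hF x y h) (hF z t h')⟩⟩

/-- lexicographic order -/
theorem lex {i j s t B : ℕ} (hs : s < B) (ht : t < B) :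
    i * B + s < j * B + t ↔ i < j ∨ (i = j ∧ s < t) := by
  constructor
  · intro h
    rcases lt_trichotomy i j with h1 | h1 | h1
    · exact Or.inl h1
    · subst h1
      exact Or.inr ⟨rfl, by omega⟩
    · exfalso
      have h2 : (j + 1) * B ≤ i * B := Nat.mul_le_mul_right B h1
      have h3 : (j + 1) * B = j * B + B := by ring
      omega
  · rintro (h | ⟨h, h'⟩)
    · have h2 : (i + 1) * B ≤ j * B := Nat.mul_le_mul_right B h
      have h3 : (i + 1) * B = i * B + B := by ring
      omega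
    · subst h
      omega

/-- The composition step. -/
theorem comp {V : Type*} (A : Aut) (X1 X2 : Set V) (F1 F2 : V → V → Prop) (u v w : V)
    (q xu xw yv yw : ℕ) (R : Rule) (hR : RuleOk A q R xu xw yv yw) (hS : StOk A q)
    (hi : ∀ x, x ∈ X1 → x ∈ X2 → x = w) (hu : u ∈ X1) (hv : v ∈ X2) (hw1 : w ∈ X1) (hw2 : w ∈ X2)
    (huw : u ≠ w) (hvw : v ≠ w) (h1 : Good A X1 F1 xu xw u w R.s1)
    (h2 : Good A X2 F2 yv yw v w R.s2) :
    Good A (X1 ∪ X2) (fun x y => F1 x y ∨ F2 x y ∨ (x = u ∧ y = v)) A.iu A.iv u v q := by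
  classical
  obtain ⟨B1, r1, p1, c1, L1⟩ := h1
  obtain ⟨B2, r2, p2, c2, L2⟩ := h2
  have hu2 : u ∉ X2 := fun h => huw (hi u hu h)
  have hv1 : v ∉ X1 := fun h => hvw (hi v h hv)
  obtain ⟨B, hB⟩ : ∃ B, B = B1 + B2 := ⟨_, rfl⟩
  obtain ⟨it, hit⟩ : ∃ it : V → ℕ, it = fun x => if x ∈ X1 then gt R.m1 (r1 x) else gt R.m2 (r2 x) :=
    ⟨_, rfl⟩
  obtain ⟨sb, hsb⟩ : ∃ sb : V → ℕ, sb = fun x => if x ∈ X1 then p1 x else p2 x := ⟨_, rfl⟩
  obtain ⟨col, hcol⟩ : ∃ col : V → V → ℕ, col = fun x y => if x = u ∧ y = v then 0 else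
    if F1 x y then gt R.e1 (c1 x y) else gt R.e2 (c2 x y) := ⟨_, rfl⟩
  have it1 : ∀ x ∈ X1, it x = gt R.m1 (r1 x) := fun x hx => by rw [hit]; exact if_pos hx
  have hr1w : r1 w = xw := (L1.rb w hw1).2 rfl
  have hr2w : r2 w = yw := (L2.rb w hw2).2 rfl
  have it2 : ∀ x ∈ X2, it x = gt R.m2 (r2 x) := by
    intro x hx
    by_cases h : x ∈ X1
    · have hxw := hi x h hx
      subst hxw
      rw [it1 x hw1, hr1w, hr2w, hR.join]
    · rw [hit]
      exact if_neg h
  have sb1 : ∀ x ∈ X1, sb x = p1 x := fun x hx => by rw [hsb]; exact if_pos hx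
  have sb2 : ∀ x ∈ X2, x ≠ w → sb x = p2 x := fun x hx hne => by
    rw [hsb]; exact if_neg fun h => hne (hi x h hx)
  have sblt : ∀ x ∈ X1 ∪ X2, sb x < B := by
    intro x hx
    by_cases h : x ∈ X1
    · rw [sb1 x h]
      have := L1.bd x h
      omega
    · have h' : x ∈ X2 := hx.resolve_left h
      have hne : x ≠ w := fun e => h (e ▸ hw1)
      rw [sb2 x h' hne]
      have := L2.bd x h'
      omega
  have inc1 : ∀ a b, a < A.n → b < A.n → gt R.m1 a = gt R.m1 b → a = b := by
    intro a b ha hb e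
    rcases lt_trichotomy a b with h | h | h
    · have := hR.mono1 a b h hb; omega
    · exact h
    · have := hR.mono1 b a h ha; omega
  have inc2 : ∀ a b, a < A.n → b < A.n → gt R.m2 a = gt R.m2 b → a = b := by
    intro a b ha hb e
    rcases lt_trichotomy a b with h | h | h
    · have := hR.mono2 a b h hb; omega
    · exact h
    · have := hR.mono2 b a h ha; omega
  obtain ⟨pos, hpos⟩ : ∃ pos : V → ℕ, pos = fun x => it x * B + sb x := ⟨_, rfl⟩
  obtain ⟨reg, hreg⟩ : ∃ reg : V → ℕ, reg = fun x => gt R.par (it x) := ⟨_, rfl⟩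
  have plt : ∀ x ∈ X1 ∪ X2, ∀ y ∈ X1 ∪ X2, (pos x < pos y ↔ it x < it y ∨ (it x = it y ∧ sb x < sb y)) := by
    intro x hx y hy
    rw [hpos]
    exact lex (sblt x hx) (sblt y hy)
  have s1 : X1 ⊆ X1 ∪ X2 := Set.subset_union_left
  have s2 : X2 ⊆ X1 ∪ X2 := Set.subset_union_right
  -- order inside the first piece
  have o1 : ∀ x ∈ X1, ∀ y ∈ X1, (pos x < pos y ↔ p1 x < p1 y) := by
    intro x hx y hy
    rw [plt x (s1 hx) y (s1 hy), it1 x hx, it1 y hy, sb1 x hx, sb1 y hy]
    rcases lt_trichotomy (r1 x) (r1 y) with h | h | h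
    · have h1 := hR.mono1 _ _ h (L1.lt y hy)
      have h2 := L1.mono x hx y hy h
      constructor
      · intro _; exact h2
      · intro _; exact Or.inl h1
    · rw [h]
      constructor
      · rintro (h1 | h1)
        · omega
        · exact h1.2
      · intro h1; exact Or.inr ⟨rfl, h1⟩
    · have h1 := hR.mono1 _ _ h (L1.lt x hx)
      have h2 := L1.mono y hy x hx h
      constructor
      · rintro (h3 | h3) <;> omega
      · intro h3; omega
  have o2 : ∀ x ∈ X2, ∀ y ∈ X2, (pos x < pos y ↔ p2 x < p2 y) := by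
    intro x hx y hy
    rw [plt x (s2 hx) y (s2 hy), it2 x hx, it2 y hy]
    rcases lt_trichotomy (r2 x) (r2 y) with h | h | h
    · have h1 := hR.mono2 _ _ h (L2.lt y hy)
      have h2 := L2.mono x hx y hy h
      constructor
      · intro _; exact h2
      · intro _; exact Or.inl h1
    · by_cases hxw : x = w
      · have hyw : y = w := (L2.rb y hy).1 (by rw [← h, hxw, hr2w])
        rw [hxw, hyw]
        constructor
        · rintro (h1 | h1)
          · omega
          · omega
        · intro h1; omega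
      · have hyw : y ≠ w := by
          intro e
          exact hxw ((L2.rb x hx).1 (by rw [h, e, hr2w]))
        rw [h, sb2 x hx hxw, sb2 y hy hyw]
        constructor
        · rintro (h1 | h1)
          · omega
          · exact h1.2
        · intro h1; exact Or.inr ⟨rfl, h1⟩
    · have h1 := hR.mono2 _ _ h (L2.lt x hx)
      have h2 := L2.mono y hy x hx h
      constructor
      · rintro (h3 | h3) <;> omega
      · intro h3; omega
  -- items of different pieces
  have dis : ∀ x ∈ X1, ∀ y ∈ X2, it x = it y → x = w ∧ y = w := by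
    intro x hx y hy e
    rw [it1 x hx, it2 y hy] at e
    obtain ⟨ha, hb⟩ := hR.disj _ _ (L1.lt x hx) (L2.lt y hy) e
    exact ⟨(L1.rb x hx).1 ha, (L2.rb y hy).1 hb⟩
  have o12 : ∀ x ∈ X1, ∀ y ∈ X2, pos x < pos y → it x < it y := by
    intro x hx y hy h
    rcases (plt x (s1 hx) y (s2 hy)).1 h with h1 | h1
    · exact h1
    · obtain ⟨e1, e2⟩ := dis x hx y hy h1.1
      rw [e1, e2] at h
      exact absurd h (lt_irrefl _)
  have o21 : ∀ x ∈ X2, ∀ y ∈ X1, pos x < pos y → it x < it y := by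
    intro x hx y hy h
    rcases (plt x (s2 hx) y (s1 hy)).1 h with h1 | h1
    · exact h1
    · obtain ⟨e1, e2⟩ := dis y hy x hx h1.1.symm
      rw [e1, e2] at h
      exact absurd h (lt_irrefl _)
  have pinj : ∀ x ∈ X1 ∪ X2, ∀ y ∈ X1 ∪ X2, pos x = pos y → x = y := by
    have key : ∀ x ∈ X1 ∪ X2, ∀ y ∈ X1 ∪ X2, pos x = pos y → it x = it y := by
      intro x hx y hy e
      rcases lt_trichotomy (it x) (it y) with h | h | h
      · have := (plt x hx y hy).2 (Or.inl h); omega
      · exact h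
      · have := (plt y hy x hx).2 (Or.inl h); omega
    intro x hx y hy e
    have ei := key x hx y hy e
    by_cases hx1 : x ∈ X1
    · by_cases hy1 : y ∈ X1
      · refine L1.inj x hx1 y hy1 ?_
        rcases lt_trichotomy (p1 x) (p1 y) with h | h | h
        · have := (o1 x hx1 y hy1).2 h; omega
        · exact h
        · have := (o1 y hy1 x hx1).2 h; omega
      · obtain ⟨e1, e2⟩ := dis x hx1 y (hy.resolve_left hy1) ei
        rw [e1, e2]
    · by_cases hy1 : y ∈ X1
      · obtain ⟨e1, e2⟩ := dis y hy1 x (hx.resolve_left hx1) ei.symm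
        rw [e1, e2]
      · have hx2 := hx.resolve_left hx1
        have hy2 := hy.resolve_left hy1
        refine L2.inj x hx2 y hy2 ?_
        rcases lt_trichotomy (p2 x) (p2 y) with h | h | h
        · have := (o2 x hx2 y hy2).2 h; omega
        · exact h
        · have := (o2 y hy2 x hx2).2 h; omega
  have rlt : ∀ x ∈ X1 ∪ X2, reg x < A.n := by
    rintro x (hx | hx)
    · rw [hreg]; simp only [it1 x hx]; exact hR.lt1 _ (L1.lt x hx)
    · rw [hreg]; simp only [it2 x hx]; exact hR.lt2 _ (L2.lt x hx)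
  have rmono : ∀ x ∈ X1 ∪ X2, ∀ y ∈ X1 ∪ X2, it y ≤ it x → reg y ≤ reg x := by
    rintro x (hx | hx) y (hy | hy) h
    · rw [hreg]; simp only
      rw [it1 x hx, it1 y hy] at h ⊢
      exact hR.par11 _ _ (L1.lt y hy) (L1.lt x hx) h
    · rw [hreg]; simp only
      rw [it1 x hx, it2 y hy] at h ⊢
      exact hR.par21 _ _ (L2.lt y hy) (L1.lt x hx) h
    · rw [hreg]; simp only
      rw [it2 x hx, it1 y hy] at h ⊢
      exact hR.par12 _ _ (L1.lt y hy) (L2.lt x hx) h
    · rw [hreg]; simp only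
      rw [it2 x hx, it2 y hy] at h ⊢
      exact hR.par22 _ _ (L2.lt y hy) (L2.lt x hx) h
  have mono' : ∀ x ∈ X1 ∪ X2, ∀ y ∈ X1 ∪ X2, reg x < reg y → pos x < pos y := by
    intro x hx y hy h
    refine (plt x hx y hy).2 (Or.inl ?_)
    by_contra hcon
    have := rmono x hx y hy (by omega)
    omega
  have monoc : ∀ x ∈ X1 ∪ X2, ∀ y ∈ X1 ∪ X2, pos x < pos y → reg x ≤ reg y := by
    intro x hx y hy h
    by_contra hcon
    have := mono' y hy x hx (by omega)
    omega
  have rau : ∀ x ∈ X1 ∪ X2, reg x = A.iu ↔ x = u := by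
    intro x hx
    by_cases hx1 : x ∈ X1
    · rw [hreg]; simp only [it1 x hx1]
      constructor
      · intro h; exact (L1.ra x hx1).1 (hR.pu1 _ (L1.lt x hx1) h)
      · intro h; rw [(L1.ra x hx1).2 h]; exact hR.pu
    · have hx2 := hx.resolve_left hx1
      rw [hreg]; simp only [it2 x hx2]
      constructor
      · intro h; exact absurd h (hR.pu2 _ (L2.lt x hx2))
      · intro h; exact absurd (h ▸ hu) hx1
  have rav : ∀ x ∈ X1 ∪ X2, reg x = A.iv ↔ x = v := by
    intro x hx
    by_cases hx2 : x ∈ X2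
    · rw [hreg]; simp only [it2 x hx2]
      constructor
      · intro h; exact (L2.ra x hx2).1 (hR.pv2 _ (L2.lt x hx2) h)
      · intro h; rw [(L2.ra x hx2).2 h]; exact hR.pv
    · have hx1 := hx.resolve_right hx2
      rw [hreg]; simp only [it1 x hx1]
      constructor
      · intro h; exact absurd h (hR.pv1 _ (L1.lt x hx1))
      · intro h; exact absurd (h ▸ hv) hx2
  have regu : reg u = A.iu := (rau u (s1 hu)).2 rfl
  have regv : reg v = A.iv := (rav v (s2 hv)).2 rfl
  -- colours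
  have cu : col u v = 0 := by rw [hcol]; exact if_pos ⟨rfl, rfl⟩
  have cF1 : ∀ x y, F1 x y → col x y = gt R.e1 (c1 x y) := by
    intro x y h
    have h0 : ¬ (x = u ∧ y = v) := fun e => hv1 (e.2 ▸ (L1.mem x y h).2)
    rw [hcol]
    simp only [h0, if_false, h, if_true]
  have cF2 : ∀ x y, F2 x y → col x y = gt R.e2 (c2 x y) := by
    intro x y h
    have h0 : ¬ (x = u ∧ y = v) := fun e => hu2 (e.1 ▸ (L2.mem x y h).1)
    have h3 : ¬ F1 x y := by
      intro h'
      have hx := hi x (L1.mem x y h').1 (L2.mem x y h).1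
      have hy := hi y (L1.mem x y h').2 (L2.mem x y h).2
      have := L2.up x y h
      rw [hx, hy] at this
      exact absurd this (lt_irrefl _)
    rw [hcol]
    simp only [h0, if_false, h3]
  have hmem : ∀ x y, (F1 x y ∨ F2 x y ∨ (x = u ∧ y = v)) → x ∈ X1 ∪ X2 ∧ y ∈ X1 ∪ X2 := by
    rintro x y (h | h | ⟨rfl, rfl⟩)
    · exact ⟨s1 (L1.mem x y h).1, s1 (L1.mem x y h).2⟩
    · exact ⟨s2 (L2.mem x y h).1, s2 (L2.mem x y h).2⟩
    · exact ⟨s1 hu, s2 hv⟩
  have hkd : ∀ x y, (F1 x y ∨ F2 x y ∨ (x = u ∧ y = v)) → reg x ≠ reg y →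
      (reg x, reg y) ∈ A.kinds q (col x y) := by
    rintro x y (h | h | ⟨rfl, rfl⟩) hne
    · obtain ⟨hx, hy⟩ := L1.mem x y h
      rw [cF1 x y h]
      rw [hreg] at hne ⊢
      simp only [it1 x hx, it1 y hy] at hne ⊢
      have hr : r1 x ≠ r1 y := fun e => hne (by rw [e])
      rcases hR.k1 _ (L1.cl x y h) _ (L1.kd x y h hr) with h4 | h4
      · exact absurd h4 hne
      · exact h4
    · obtain ⟨hx, hy⟩ := L2.mem x y h
      rw [cF2 x y h]
      rw [hreg] at hne ⊢
      simp only [it2 x hx, it2 y hy] at hne ⊢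
      have hr : r2 x ≠ r2 y := fun e => hne (by rw [e])
      rcases hR.k2 _ (L2.cl x y h) _ (L2.kd x y h hr) with h4 | h4
      · exact absurd h4 hne
      · exact h4
    · rw [cu, regu, regv]
      exact hS.base
  have itlt : ∀ x ∈ X1 ∪ X2, it x < gt R.m1 (A.n - 1) + gt R.m2 (A.n - 1) + 1 := by
    rintro x (hx | hx)
    · rw [it1 x hx]
      have h3 := L1.lt x hx
      rcases Nat.lt_or_ge (r1 x) (A.n - 1) with h | h
      · have := hR.mono1 _ _ h (by omega)
        omega
      · have e : r1 x = A.n - 1 := by omega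
        rw [e]; omega
    · rw [it2 x hx]
      have h3 := L2.lt x hx
      rcases Nat.lt_or_ge (r2 x) (A.n - 1) with h | h
      · have := hR.mono2 _ _ h (by omega)
        omega
      · have e : r2 x = A.n - 1 := by omega
        rw [e]; omega
  refine ⟨(gt R.m1 (A.n - 1) + gt R.m2 (A.n - 1) + 1) * B, reg, pos, col,
    rlt, rau, rav, ?_, pinj, mono', hmem, ?_, ?_, hkd, ?_⟩
  · intro x hx
    have h3 := itlt x hx
    have h4 := sblt x hx
    have h5 : (it x + 1) * B ≤ (gt R.m1 (A.n - 1) + gt R.m2 (A.n - 1) + 1) * B :=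
      Nat.mul_le_mul_right B h3
    have h6 : (it x + 1) * B = it x * B + B := by ring
    rw [hpos]
    simp only
    omega
  · rintro x y (h | h | ⟨rfl, rfl⟩)
    · exact (o1 x (L1.mem x y h).1 y (L1.mem x y h).2).2 (L1.up x y h)
    · exact (o2 x (L2.mem x y h).1 y (L2.mem x y h).2).2 (L2.up x y h)
    · exact mono' _ (s1 hu) _ (s2 hv) (by rw [regu, regv]; exact hS.uv)
  · rintro x y (h | h | ⟨rfl, rfl⟩)
    · rw [cF1 x y h]; exact hR.col1 _ (L1.cl x y h)
    · rw [cF2 x y h]; exact hR.col2 _ (L2.cl x y h)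
    · rw [cu]; exact hS.K0
  · rintro x y z t h h' hc ⟨k1, k2, k3⟩
    rcases h with h | h | ⟨rfl, rfl⟩
    · obtain ⟨hx, hy⟩ := L1.mem x y h
      rcases h' with h' | h' | ⟨rfl, rfl⟩
      · obtain ⟨hz, ht⟩ := L1.mem z t h'
        rw [cF1 x y h, cF1 z t h'] at hc
        have hc' := hR.inj1 _ _ (L1.cl x y h) (L1.cl z t h') hc
        exact L1.cr x y z t h h' hc' ⟨(o1 x hx z hz).1 k1, (o1 z hz y hy).1 k2, (o1 y hy t ht).1 k3⟩
      · obtain ⟨hz, ht⟩ := L2.mem z t h'
        rw [cF1 x y h, cF2 z t h'] at hc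
        have i1 := o12 x hx z hz k1
        have i2 := o21 z hz y hy k2
        have i3 := o12 y hy t ht k3
        rw [it1 x hx, it2 z hz] at i1
        rw [it2 z hz, it1 y hy] at i2
        rw [it1 y hy, it2 t ht] at i3
        have n1 : r1 x ≠ r1 y := fun e => by rw [e] at i1; omega
        have n2 : r2 z ≠ r2 t := fun e => by rw [e] at i2; omega
        exact (hR.cr _ _ (L1.cl x y h) (L2.cl z t h') hc _ (L1.kd x y h n1) _ (L2.kd z t h' n2)).1
          ⟨i1, i2, i3⟩
      · have m1 := hkd x y (Or.inl h)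
        have a1 := monoc x (s1 hx) _ (s1 hu) k1
        have a2 := monoc _ (s1 hu) y (s1 hy) k2
        have a3 := monoc y (s1 hy) _ (s2 hv) k3
        have b1 : reg x ≠ A.iu := fun e => by
          have := (rau x (s1 hx)).1 e
          rw [this] at k1; exact absurd k1 (lt_irrefl _)
        have b2 : reg y ≠ A.iu := fun e => by
          have := (rau y (s1 hy)).1 e
          rw [this] at k2; exact absurd k2 (lt_irrefl _)
        have b3 : reg y ≠ A.iv := fun e => by
          have := (rav y (s1 hy)).1 e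
          rw [this] at k3; exact absurd k3 (lt_irrefl _)
        rw [regu] at a1 a2
        rw [regv] at a3
        have := m1 (by omega)
        rw [hc, cu] at this
        exact (hS.own _ this).1 ⟨by simp only; omega, by simp only; omega, by simp only; omega⟩
    · obtain ⟨hx, hy⟩ := L2.mem x y h
      rcases h' with h' | h' | ⟨rfl, rfl⟩
      · obtain ⟨hz, ht⟩ := L1.mem z t h'
        rw [cF2 x y h, cF1 z t h'] at hc
        have i1 := o21 x hx z hz k1
        have i2 := o12 z hz y hy k2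
        have i3 := o21 y hy t ht k3
        rw [it2 x hx, it1 z hz] at i1
        rw [it1 z hz, it2 y hy] at i2
        rw [it2 y hy, it1 t ht] at i3
        have n1 : r2 x ≠ r2 y := fun e => by rw [e] at i1; omega
        have n2 : r1 z ≠ r1 t := fun e => by rw [e] at i2; omega
        exact (hR.cr _ _ (L1.cl z t h') (L2.cl x y h) hc.symm _ (L1.kd z t h' n2) _
          (L2.kd x y h n1)).2 ⟨i1, i2, i3⟩
      · obtain ⟨hz, ht⟩ := L2.mem z t h'
        rw [cF2 x y h, cF2 z t h'] at hc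
        have hc' := hR.inj2 _ _ (L2.cl x y h) (L2.cl z t h') hc
        exact L2.cr x y z t h h' hc' ⟨(o2 x hx z hz).1 k1, (o2 z hz y hy).1 k2, (o2 y hy t ht).1 k3⟩
      · have m1 := hkd x y (Or.inr (Or.inl h))
        have a1 := monoc x (s2 hx) _ (s1 hu) k1
        have a2 := monoc _ (s1 hu) y (s2 hy) k2
        have a3 := monoc y (s2 hy) _ (s2 hv) k3
        have b1 : reg x ≠ A.iu := fun e => by
          have := (rau x (s2 hx)).1 e
          rw [this] at k1; exact absurd k1 (lt_irrefl _)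
        have b2 : reg y ≠ A.iu := fun e => by
          have := (rau y (s2 hy)).1 e
          rw [this] at k2; exact absurd k2 (lt_irrefl _)
        have b3 : reg y ≠ A.iv := fun e => by
          have := (rav y (s2 hy)).1 e
          rw [this] at k3; exact absurd k3 (lt_irrefl _)
        rw [regu] at a1 a2
        rw [regv] at a3
        have := m1 (by omega)
        rw [hc, cu] at this
        exact (hS.own _ this).1 ⟨by simp only; omega, by simp only; omega, by simp only; omega⟩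
    · have key : (z ∈ X1 ∪ X2 ∧ t ∈ X1 ∪ X2) → (F1 z t ∨ F2 z t ∨ (z = x ∧ t = y)) → False := by
        rintro ⟨hz, ht⟩ hh
        have m1 := hkd z t hh
        have a1 := monoc _ (s1 hu) z hz k1
        have a2 := monoc z hz _ (s2 hv) k2
        have a3 := monoc _ (s2 hv) t ht k3
        have b1 : reg z ≠ A.iu := fun e => by
          have := (rau z hz).1 e
          rw [this] at k1; exact absurd k1 (lt_irrefl _)
        have b2 : reg z ≠ A.iv := fun e => by
          have := (rav z hz).1 e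
          rw [this] at k2; exact absurd k2 (lt_irrefl _)
        have b3 : reg t ≠ A.iv := fun e => by
          have := (rav t ht).1 e
          rw [this] at k3; exact absurd k3 (lt_irrefl _)
        rw [regu] at a1
        rw [regv] at a2 a3
        have := m1 (by omega)
        rw [← hc, cu] at this
        exact (hS.own _ this).2 ⟨by simp only; omega, by simp only; omega, by simp only; omega⟩
      exact key (hmem z t h') h'

end Pool.Agent.SN22
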