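import Mathlib

/-!
# Outerplanar DAGs and stack layouts
-/

set_option autoImplicit false

namespace Pool.Agent.SN22

/-- The directed graph with the edge relation `E` has no directed cycle. -/
def IsDag {V : Type*} (E : V → V → Prop) : Prop := ∀ v, ¬ Relation.TransGen E v v

/-- The underlying undirected graph is outerplanar: the vertices can be placed on a circle (numbered in
this order along the circle) such that no two edges, drawn as chords, cross. -/
def IsOuterplanar {V : Type*} (E : V → V → Prop) : Prop :=
  ∃ p : V → ℕ, Function.Injective p ∧ ∀ a b c d : V, (E a b ∨ E b a) → (E c d ∨ E d c) →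
    ¬ (p a < p c ∧ p c < p b ∧ p b < p d)

/-- There is a `k`-stack layout: a topological order (`a` before `b` if `p a < p b`) and a colouring of the
edges with `k` colours such that no two edges of the same colour cross. -/
def HasStackLayout {V : Type*} (E : V → V → Prop) (k : ℕ) : Prop :=
  ∃ (p : V → ℕ) (c : V → V → Fin k), Function.Injective p ∧ (∀ a b, E a b → p a < p b) ∧
    ∀ a b a' b', E a b → E a' b' → c a b = c a' b' → ¬ (p a < p a' ∧ p a' < p b ∧ p b < p b')

end Pool.Agent.SN22
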