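import Pool.Agent.SN22.Check
import Pool.Agent.SN22.Defs

/-!
# Layouts of outerplanar DAGs by induction over a triangulation
-/

set_option autoImplicit false

namespace Pool.Agent.SN22

section split

variable {V : Type*}

/-- Splitting: a vertex `c` between `a` and `b` such that every edge between `a` and `b` other than
`ab` is on one side of `c`. -/
theorem split [Finite V] (E : V → V → Prop) (p : V → ℕ) (hp : Function.Injective p)
    (hE : ∀ a b c d : V, (E a b ∨ E b a) → (E c d ∨ E d c) → ¬ (p a < p c ∧ p c < p b ∧ p b < p d))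
    (a b : V) (hne : ∃ x, p a < p x ∧ p x < p b) :
    ∃ c, p a < p c ∧ p c < p b ∧ ∀ x y, (E x y ∨ E y x) → p a ≤ p x → p x < p y → p y ≤ p b →
      (x = a ∧ y = b) ∨ p y ≤ p c ∨ p c ≤ p x := by
  classical
  by_cases hN : ∃ x, p a < p x ∧ p x < p b ∧ (E a x ∨ E x a)
  · -- the last neighbour of a
    obtain ⟨c, hc, hmax⟩ : ∃ c, (p a < p c ∧ p c < p b ∧ (E a c ∨ E c a)) ∧
        ∀ x, (p a < p x ∧ p x < p b ∧ (E a x ∨ E x a)) → p x ≤ p c := by
      obtain ⟨c, hc, hm⟩ := Set.exists_max_image {x | p a < p x ∧ p x < p b ∧ (E a x ∨ E x a)} p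
        (Set.toFinite _) hN
      exact ⟨c, hc, fun x hx => hm x hx⟩
    refine ⟨c, hc.1, hc.2.1, ?_⟩
    intro x y hxy h1 h2 h3
    by_contra hcon
    push Not at hcon
    obtain ⟨k1, k2, k3⟩ := hcon
    rcases Nat.lt_or_ge (p a) (p x) with h4 | h4
    · exact hE a c x y hc.2.2 hxy ⟨h4, k3, k2⟩
    · have e : x = a := hp (by omega)
      subst e
      have hyb : p y < p b := by
        rcases Nat.lt_or_ge (p y) (p b) with h5 | h5
        · exact h5
        · exact absurd (hp (by omega : p y = p b)) (k1 rfl)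
      have := hmax y ⟨h2, hyb, hxy⟩
      omega
  · -- the first vertex after a
    obtain ⟨c, hc, hmin⟩ : ∃ c, (p a < p c ∧ p c < p b) ∧ ∀ x, (p a < p x ∧ p x < p b) → p c ≤ p x := by
      obtain ⟨c, hc, hm⟩ := Set.exists_min_image {x | p a < p x ∧ p x < p b} p (Set.toFinite _) hne
      exact ⟨c, hc, fun x hx => hm x hx⟩
    refine ⟨c, hc.1, hc.2, ?_⟩
    intro x y hxy h1 h2 h3
    by_contra hcon
    push Not at hcon
    obtain ⟨k1, k2, k3⟩ := hcon
    rcases Nat.lt_or_ge (p a) (p x) with h4 | h4
    · have := hmin x ⟨h4, by omega⟩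
      omega
    · have e : x = a := hp (by omega)
      subst e
      have hyb : p y < p b := by
        rcases Nat.lt_or_ge (p y) (p b) with h5 | h5
        · exact h5
        · exact absurd (hp (by omega : p y = p b)) (k1 rfl)
      exact hN ⟨y, h2, hyb, hxy⟩

/-- the vertices between `a` and `b` -/
def Xs (p : V → ℕ) (a b : V) : Set V := {x | (p a ≤ p x ∧ p x ≤ p b) ∨ (p b ≤ p x ∧ p x ≤ p a)}

/-- the edges between `a` and `b`, and the base edge -/
def Fs (E : V → V → Prop) (p : V → ℕ) (a b : V) : V → V → Prop := fun x y =>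
  x ∈ Xs p a b ∧ y ∈ Xs p a b ∧ (E x y ∨ (x = a ∧ y = b))

theorem Xs_comm (p : V → ℕ) (a b : V) : Xs p a b = Xs p b a := by
  ext x
  exact or_comm

/-- the base case -/
theorem good_base (A : Aut) (E : V → V → Prop) (p : V → ℕ) (hp : Function.Injective p)
    (s : V → V → Prop) (hanti : ∀ a b, s a b → s b a → a = b) (hs : ∀ a b, E a b → s a b ∧ a ≠ b)
    (q : ℕ) (hq : StOk A q) (u v : V) (huv : u ≠ v) (hsuv : s u v)
    (hno : ¬ ∃ x, (p u < p x ∧ p x < p v) ∨ (p v < p x ∧ p x < p u)) :
    Good A (Xs p u v) (Fs E p u v) A.iu A.iv u v q := by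
  classical
  have hX : ∀ x ∈ Xs p u v, x = u ∨ x = v := by
    intro x hx
    by_contra hcon
    push Not at hcon
    have n1 : p x ≠ p u := fun e => hcon.1 (hp e)
    have n2 : p x ≠ p v := fun e => hcon.2 (hp e)
    apply hno
    refine ⟨x, ?_⟩
    rcases hx with ⟨h1, h2⟩ | ⟨h1, h2⟩
    · left; omega
    · right; omega
  have hlt := hq.uv
  have hvn := hq.vn
  obtain ⟨reg, hru, hrv, hrn⟩ : ∃ reg : V → ℕ, reg u = A.iu ∧ reg v = A.iv ∧ ∀ x, reg x < A.n := by
    refine ⟨fun x => if x = u then A.iu else A.iv, if_pos rfl, if_neg huv.symm, ?_⟩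
    intro x
    show (if x = u then A.iu else A.iv) < A.n
    by_cases h : x = u
    · rw [if_pos h]; omega
    · rw [if_neg h]; exact hvn
  have hF : ∀ x y, Fs E p u v x y → x = u ∧ y = v := by
    rintro x y ⟨hx, hy, h | h⟩
    · obtain ⟨h1, h2⟩ := hs x y h
      rcases hX x hx with e1 | e1
      · rcases hX y hy with e2 | e2
        · exact absurd (e1.trans e2.symm) h2
        · exact ⟨e1, e2⟩
      · rcases hX y hy with e2 | e2
        · rw [e1, e2] at h1
          exact absurd (hanti _ _ hsuv h1) huv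
        · exact absurd (e1.trans e2.symm) h2
    · exact h
  refine ⟨A.n, reg, reg, fun _ _ => 0, fun x _ => hrn x, ?_, ?_, fun x _ => hrn x, ?_,
    fun x _ y _ h => h, fun x y h => ⟨h.1, h.2.1⟩, ?_, fun x y _ => hq.K0, ?_, ?_⟩
  · intro x hx
    rcases hX x hx with e | e
    · rw [e, hru]; simp
    · rw [e, hrv]
      constructor
      · intro h; omega
      · intro h; exact absurd h huv.symm
  · intro x hx
    rcases hX x hx with e | e
    · rw [e, hru]
      constructor
      · intro h; omega
      · intro h; exact absurd h huv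
    · rw [e, hrv]; simp
  · intro x hx y hy h
    rcases hX x hx with e1 | e1 <;> rcases hX y hy with e2 | e2
    · exact e1.trans e2.symm
    · rw [e1, e2, hru, hrv] at h; omega
    · rw [e1, e2, hru, hrv] at h; omega
    · exact e1.trans e2.symm
  · intro x y h
    obtain ⟨e1, e2⟩ := hF x y h
    rw [e1, e2, hru, hrv]
    exact hlt
  · intro x y h _
    obtain ⟨e1, e2⟩ := hF x y h
    rw [e1, e2, hru, hrv]
    exact hq.base
  · intro x y z t h h' _ hc
    obtain ⟨e1, e2⟩ := hF x y h
    obtain ⟨e3, e4⟩ := hF z t h'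
    rw [e1, e3] at hc
    exact absurd hc.1 (lt_irrefl _)

/-- the main induction -/
theorem good_all [Finite V] (A : Aut) (hA : Ok A) (E : V → V → Prop) (p : V → ℕ)
    (hp : Function.Injective p)
    (hE : ∀ a b c d : V, (E a b ∨ E b a) → (E c d ∨ E d c) → ¬ (p a < p c ∧ p c < p b ∧ p b < p d))
    (s : V → V → Prop) (htot : ∀ a b, s a b ∨ s b a) (htr : ∀ a b c, s a b → s b c → s a c)
    (hanti : ∀ a b, s a b → s b a → a = b) (hs : ∀ a b, E a b → s a b ∧ a ≠ b) (m : ℕ) :
    ∀ u v : V, u ≠ v → s u v → (p u - p v) + (p v - p u) ≤ m → ∀ q, q < A.N →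
      Good A (Xs p u v) (Fs E p u v) A.iu A.iv u v q := by
  induction m with
  | zero =>
    intro u v huv _ hm _ _
    exact absurd (hp (by omega)) huv
  | succ m ih =>
    intro u v huv hsuv hm q hq
    by_cases hno : ∃ x, (p u < p x ∧ p x < p v) ∨ (p v < p x ∧ p x < p u)
    swap
    · exact good_base A E p hp s hanti hs q (hA.st q hq) u v huv hsuv hno
    obtain ⟨c, hc, hcov⟩ : ∃ c, ((p u < p c ∧ p c < p v) ∨ (p v < p c ∧ p c < p u)) ∧
        ∀ x y, Fs E p u v x y → (x = u ∧ y = v) ∨ (x ∈ Xs p u c ∧ y ∈ Xs p u c ∧ E x y) ∨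
          (x ∈ Xs p v c ∧ y ∈ Xs p v c ∧ E x y) := by
      rcases Nat.lt_or_ge (p u) (p v) with h | h
      · obtain ⟨c, h1, h2, h3⟩ := split E p hp hE u v (by
          obtain ⟨x, hx⟩ := hno
          exact ⟨x, by omega⟩)
        refine ⟨c, Or.inl ⟨h1, h2⟩, ?_⟩
        rintro x y ⟨hx, hy, he | he⟩
        swap
        · exact Or.inl he
        have hx' : p u ≤ p x ∧ p x ≤ p v := by rcases hx with hx | hx <;> omega
        have hy' : p u ≤ p y ∧ p y ≤ p v := by rcases hy with hy | hy <;> omega
        have hxy : p x ≠ p y := fun e => (hs x y he).2 (hp e)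
        rcases Nat.lt_or_ge (p x) (p y) with h4 | h4
        · rcases h3 x y (Or.inl he) hx'.1 h4 hy'.2 with h5 | h5 | h5
          · exact Or.inl h5
          · right; left
            exact ⟨Or.inl (by omega), Or.inl (by omega), he⟩
          · right; right
            exact ⟨Or.inr (by omega), Or.inr (by omega), he⟩
        · rcases h3 y x (Or.inr he) hy'.1 (by omega) hx'.2 with h5 | h5 | h5
          · obtain ⟨rfl, rfl⟩ := h5
            exact absurd (hanti _ _ hsuv (hs _ _ he).1) huv
          · right; left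
            exact ⟨Or.inl (by omega), Or.inl (by omega), he⟩
          · right; right
            exact ⟨Or.inr (by omega), Or.inr (by omega), he⟩
      · obtain ⟨c, h1, h2, h3⟩ := split E p hp hE v u (by
          obtain ⟨x, hx⟩ := hno
          exact ⟨x, by omega⟩)
        refine ⟨c, Or.inr ⟨h1, h2⟩, ?_⟩
        rintro x y ⟨hx, hy, he | he⟩
        swap
        · exact Or.inl he
        have hx' : p v ≤ p x ∧ p x ≤ p u := by rcases hx with hx | hx <;> omega
        have hy' : p v ≤ p y ∧ p y ≤ p u := by rcases hy with hy | hy <;> omega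
        have hxy : p x ≠ p y := fun e => (hs x y he).2 (hp e)
        rcases Nat.lt_or_ge (p x) (p y) with h4 | h4
        · rcases h3 x y (Or.inl he) hx'.1 h4 hy'.2 with h5 | h5 | h5
          · obtain ⟨rfl, rfl⟩ := h5
            exact absurd (hanti _ _ hsuv (hs _ _ he).1) huv
          · right; right
            exact ⟨Or.inl (by omega), Or.inl (by omega), he⟩
          · right; left
            exact ⟨Or.inr (by omega), Or.inr (by omega), he⟩
        · rcases h3 y x (Or.inr he) hy'.1 (by omega) hx'.2 with h5 | h5 | h5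
          · obtain ⟨rfl, rfl⟩ := h5
            exact Or.inl ⟨rfl, rfl⟩
          · right; right
            exact ⟨Or.inl (by omega), Or.inl (by omega), he⟩
          · right; left
            exact ⟨Or.inr (by omega), Or.inr (by omega), he⟩
    have huc : u ≠ c := fun e => by rw [e] at hc; omega
    have hvc : v ≠ c := fun e => by rw [e] at hc; omega
    have mu : u ∈ Xs p u c := by
      rcases Nat.lt_or_ge (p u) (p c) with h | h
      · exact Or.inl ⟨le_rfl, h.le⟩
      · exact Or.inr ⟨h, le_rfl⟩
    have mc1 : c ∈ Xs p u c := by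
      rcases Nat.lt_or_ge (p u) (p c) with h | h
      · exact Or.inl ⟨h.le, le_rfl⟩
      · exact Or.inr ⟨le_rfl, h⟩
    have mv : v ∈ Xs p v c := by
      rcases Nat.lt_or_ge (p v) (p c) with h | h
      · exact Or.inl ⟨le_rfl, h.le⟩
      · exact Or.inr ⟨h, le_rfl⟩
    have mc2 : c ∈ Xs p v c := by
      rcases Nat.lt_or_ge (p v) (p c) with h | h
      · exact Or.inl ⟨h.le, le_rfl⟩
      · exact Or.inr ⟨le_rfl, h⟩
    have hinter : ∀ x, x ∈ Xs p u c → x ∈ Xs p v c → x = c := by
      intro x h1 h2
      apply hp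
      rcases h1 with h1 | h1 <;> rcases h2 with h2 | h2 <;> rcases hc with hc | hc <;> omega
    have hunion : Xs p u c ∪ Xs p v c = Xs p u v := by
      ext x
      constructor
      · rintro (h1 | h1)
        · rcases h1 with h1 | h1 <;> rcases hc with hc | hc
          · exact Or.inl (by omega)
          · omega
          · omega
          · exact Or.inr (by omega)
        · rcases h1 with h1 | h1 <;> rcases hc with hc | hc
          · omega
          · exact Or.inr (by omega)
          · exact Or.inl (by omega)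
          · omega
      · intro h1
        rcases h1 with h1 | h1
        · rcases Nat.lt_or_ge (p x) (p c) with h2 | h2
          · exact Or.inl (Or.inl (by omega))
          · exact Or.inr (Or.inr (by omega))
        · rcases Nat.lt_or_ge (p x) (p c) with h2 | h2
          · exact Or.inr (Or.inl (by omega))
          · exact Or.inl (Or.inr (by omega))
    have d1 : (p u - p c) + (p c - p u) ≤ m := by omega
    have d2 : (p v - p c) + (p c - p v) ≤ m := by omega
    have fin : ∀ (t xu xw yv yw : ℕ) (F1 F2 : V → V → Prop),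
        RuleOk A q (A.rule q t) xu xw yv yw →
        Good A (Xs p u c) F1 xu xw u c (A.rule q t).s1 →
        Good A (Xs p v c) F2 yv yw v c (A.rule q t).s2 →
        (∀ x y, x ∈ Xs p u c → y ∈ Xs p u c → E x y → F1 x y) →
        (∀ x y, x ∈ Xs p v c → y ∈ Xs p v c → E x y → F2 x y) →
        Good A (Xs p u v) (Fs E p u v) A.iu A.iv u v q := by
      intro t xu xw yv yw F1 F2 hR g1 g2 hf1 hf2
      have := comp A (Xs p u c) (Xs p v c) F1 F2 u v c q xu xw yv yw _ hR (hA.st q hq) hinter
        mu mv mc1 mc2 huc hvc g1 g2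
      rw [hunion] at this
      refine this.sub ?_
      intro x y h
      rcases hcov x y h with h1 | h1 | h1
      · exact Or.inr (Or.inr h1)
      · exact Or.inl (hf1 x y h1.1 h1.2.1 h1.2.2)
      · exact Or.inr (Or.inl (hf2 x y h1.1 h1.2.1 h1.2.2))
    by_cases hA1 : s v c
    · -- type A
      have hsuc : s u c := htr u v c hsuv hA1
      exact fin 0 A.iu A.iv A.iu A.iv (Fs E p u c) (Fs E p v c) (hA.r0 q hq)
        (ih u c huc hsuc d1 _ (hA.t1 q 0 hq (by omega)))
        (ih v c hvc hA1 d2 _ (hA.t2 q 0 hq (by omega)))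
        (fun x y hx hy he => ⟨hx, hy, Or.inl he⟩) (fun x y hx hy he => ⟨hx, hy, Or.inl he⟩)
    · have hcv : s c v := (htot v c).resolve_left hA1
      by_cases hB1 : s c u
      · -- type B
        refine fin 1 A.iv A.iu A.iv A.iu (Fs E p c u) (Fs E p c v) (hA.r1 q hq) ?_ ?_ ?_ ?_
        · rw [Xs_comm]
          exact (ih c u huc.symm hB1 (by omega) _ (hA.t1 q 1 hq (by omega))).swap
        · rw [Xs_comm]
          exact (ih c v hvc.symm hcv (by omega) _ (hA.t2 q 1 hq (by omega))).swap
        · intro x y hx hy he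
          rw [Xs_comm] at hx hy
          exact ⟨hx, hy, Or.inl he⟩
        · intro x y hx hy he
          rw [Xs_comm] at hx hy
          exact ⟨hx, hy, Or.inl he⟩
      · -- type I
        have huc' : s u c := (htot u c).resolve_right hB1
        refine fin 2 A.iu A.iv A.iv A.iu (Fs E p u c) (Fs E p c v) (hA.r2 q hq)
          (ih u c huc huc' d1 _ (hA.t1 q 2 hq (by omega))) ?_
          (fun x y hx hy he => ⟨hx, hy, Or.inl he⟩) ?_
        · rw [Xs_comm]
          exact (ih c v hvc.symm hcv (by omega) _ (hA.t2 q 2 hq (by omega))).swap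
        · intro x y hx hy he
          rw [Xs_comm] at hx hy
          exact ⟨hx, hy, Or.inl he⟩

end split

/-- **Theorem.** A correct automaton with `K` colours gives `K`-stack layouts of all outerplanar
DAGs. -/
theorem main (A : Aut) (hA : Ok A) {V : Type*} [Finite V] (E : V → V → Prop) (hD : IsDag E)
    (hO : IsOuterplanar E) : HasStackLayout E A.K := by
  classical
  have hK : 0 < A.K := (hA.st 0 hA.pos).K0
  have hirr : ∀ x, ¬ E x x := fun x h => hD x (Relation.TransGen.single h)
  rcases subsingleton_or_nontrivial V with hV | hV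
  · refine ⟨fun _ => 0, fun _ _ => ⟨0, hK⟩, fun a b _ => Subsingleton.elim a b, ?_, ?_⟩
    · intro a b h
      rw [Subsingleton.elim b a] at h
      exact absurd h (hirr a)
    · intro a b _ _ h
      rw [Subsingleton.elim b a] at h
      exact absurd h (hirr a)
  obtain ⟨p, hp, hE⟩ := hO
  -- a linear extension
  let r : V → V → Prop := Relation.ReflTransGen E
  have hr : IsPartialOrder V r :=
    { refl := fun a => Relation.ReflTransGen.refl
      trans := fun a b c h1 h2 => Relation.ReflTransGen.trans h1 h2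
      antisymm := by
        intro a b h1 h2
        by_contra hne
        rcases Relation.reflTransGen_iff_eq_or_transGen.1 h1 with h3 | h3
        · exact hne h3.symm
        · exact hD a (Relation.TransGen.trans_left h3 h2) }
  obtain ⟨s, hsl, hrs⟩ := extend_partialOrder r
  have hs : ∀ a b, E a b → s a b ∧ a ≠ b := by
    intro a b h
    refine ⟨hrs a b (Relation.ReflTransGen.single h), ?_⟩
    rintro rfl
    exact hirr _ h
  obtain ⟨a, ha⟩ : ∃ a, ∀ x, p a ≤ p x := by
    obtain ⟨a, -, h⟩ := Set.exists_min_image (Set.univ : Set V) p (Set.toFinite _) Set.univ_nonempty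
    exact ⟨a, fun x => h x (Set.mem_univ x)⟩
  obtain ⟨b, hb⟩ : ∃ b, ∀ x, p x ≤ p b := by
    obtain ⟨b, -, h⟩ := Set.exists_max_image (Set.univ : Set V) p (Set.toFinite _) Set.univ_nonempty
    exact ⟨b, fun x => h x (Set.mem_univ x)⟩
  have hab : a ≠ b := by
    intro e
    obtain ⟨x, y, hxy⟩ := hV.exists_pair_ne
    apply hxy
    apply hp
    have h1 := ha x
    have h2 := ha y
    have h3 := hb x
    have h4 := hb y
    rw [e] at h1 h2
    omega
  have key : ∀ u v : V, u ≠ v → s u v → Xs p u v = Set.univ → HasStackLayout E A.K := by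
    intro u v huv hsuv hX
    obtain ⟨B, reg, pos, col, L⟩ := good_all A hA E p hp hE s (fun a b => hsl.total a b)
      (fun a b c h1 h2 => hsl.trans a b c h1 h2) (fun a b h1 h2 => hsl.antisymm a b h1 h2) hs _ u v
      huv hsuv le_rfl 0 hA.pos
    have hX' : ∀ x, x ∈ Xs p u v := fun x => by rw [hX]; exact Set.mem_univ x
    have hF : ∀ x y, E x y → Fs E p u v x y := fun x y h => ⟨hX' x, hX' y, Or.inl h⟩
    refine ⟨pos, fun x y => if h : col x y < A.K then ⟨col x y, h⟩ else ⟨0, hK⟩, ?_, ?_, ?_⟩
    · intro x y h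
      exact L.inj x (hX' x) y (hX' y) h
    · intro x y h
      exact L.up x y (hF x y h)
    · intro x y z t h h' hc
      have h1 := L.cl x y (hF x y h)
      have h2 := L.cl z t (hF z t h')
      simp only [h1, h2, dif_pos, Fin.mk.injEq] at hc
      exact L.cr x y z t (hF x y h) (hF z t h') hc
  rcases hsl.total a b with h | h
  · refine key a b hab h ?_
    ext x
    exact ⟨fun _ => Set.mem_univ x, fun _ => Or.inl ⟨ha x, hb x⟩⟩
  · refine key b a hab.symm h ?_
    ext x
    exact ⟨fun _ => Set.mem_univ x, fun _ => Or.inr ⟨ha x, hb x⟩⟩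

end Pool.Agent.SN22
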